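import Pool.Agent.H.MP_4dbef5_lc.E

namespace Pool.Agent.Results.MP_4dbef5_lc.Exact2

open Pool.Agent.H.MP_4dbef5_lc

theorem result (n : ℕ) (hn : 3 ≤ n) :
    IsGreatest {k | ∃ K : Finset (Finset (Fin n)), NCTD K = 2 ∧ K.card = k}
      (n.choose 2 + n ^ 2 / 4 + 3 * n ^ 2 / 8) :=
  ⟨lower n hn, fun _ ⟨_, a, b⟩ => b ▸ upper2 hn a.le⟩

end Pool.Agent.Results.MP_4dbef5_lc.Exact2
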