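import Pool.Agent.H.MP_4dbef5_lc.A

namespace Pool.Agent.Results.MP_4dbef5_lc.Upper

open Pool.Agent.H.MP_4dbef5_lc

theorem result (n d s : ℕ) (K : Finset (Finset (Fin n))) (h : NCTD K = d) (hs : d + s ≤ n) :
    K.card * (d + s).choose d ≤ 2 ^ (d + s) * n.choose d :=
  upper h.le hs

end Pool.Agent.Results.MP_4dbef5_lc.Upper
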